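import Pool.Agent.helper25.EN.Spec

set_option autoImplicit false

namespace EN

open Finset Real

theorem ENT_adp {m : ℕ} {S : ℕ → Om m → Finset (Fin m)} (hS : Rounds S) (i : ℕ) :
    Adp (S i) := by
  intro x y h
  cases i with
  | zero => rw [hS.1, hS.1]
  | succ i => exact (hS.2 i x).2 y (fun u hu => h u ((hS.2 i x).1 hu))

theorem ENT_base {m : ℕ} {S : ℕ → Om m → Finset (Fin m)} (hS : Rounds S) (v : Fin m)
    (Q : Om m → ℝ) (hQ : Law Q) :
    ∑ x with v ∈ S (0 + 1) x, Q x = (#{x : Om m | v ∈ S (0 + 1) x} : ℝ) / 2 ^ m := by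
  have hconst : ∀ x y, S (0 + 1) y = S (0 + 1) x := fun x y =>
    (hS.2 0 x).2 y (fun u hu => by rw [hS.1] at hu; exact absurd hu (notMem_empty _))
  obtain ⟨x0⟩ : Nonempty (Om m) := ⟨fun _ => true⟩
  by_cases h : v ∈ S (0 + 1) x0
  · have e : (univ.filter fun x : Om m => v ∈ S (0 + 1) x) = univ := by
      refine filter_true_of_mem fun x _ => ?_
      rw [hconst x0 x]; exact h
    rw [e, hQ.2, card_univ]
    have hc : Fintype.card (Om m) = 2 ^ m := by
      simp [Om]
    rw [hc]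
    push_cast
    rw [div_self (by positivity)]
  · have e : (univ.filter fun x : Om m => v ∈ S (0 + 1) x) = ∅ := by
      refine filter_false_of_mem fun x _ => ?_
      rw [hconst x0 x]; exact h
    rw [e]
    simp

theorem ENT_X (acp : ACP_stmt) (inq : INQ_stmt) (klq : KLQ_stmt) (loc : LOC_stmt)
    {m : ℕ} {κ : Type} (T : Finset κ) (S : κ → Om m → Finset (Fin m)) (Λ : Finset (Fin m))
    (Q : Om m → ℝ) (hQ : Law Q) (hdep : ∀ x y : Om m, (∀ u ∈ Λ, x u = y u) → Q x = Q y)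
    (B : ℝ → ℝ) (L : ℝ) (hL : 0 ≤ L) (hQL : ∀ x, Q x ≤ exp L / 2 ^ m)
    (IH : ∀ (R : Om m → ℝ) (L' : ℝ), Law R → (∀ x y : Om m, (∀ u ∈ Λ, x u = y u) → R x = R y) →
      0 ≤ L' → (∀ x, R x ≤ exp L' / 2 ^ m) → ∀ u ∈ Λ,
      ∑ τ ∈ T, ∑ x with u ∈ S τ x, R x ≤ B L') :
    ∃ n : Fin m → ℝ, (∀ u, 0 ≤ n u ∧ n u ≤ 1) ∧ ∑ u, n u ≤ L ∧
      ∑ τ ∈ T, X Q (S τ) ≤ ∑ u ∈ Λ.filter (fun u => 0 < n u), n u * B (L + log (1 / n u)) := by
  have hup : ∀ u : Fin m, u ∉ pa u := by
    intro u hu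
    unfold pa at hu
    exact lt_irrefl u (mem_filter.1 hu).2
  have ha : ∀ (u : Fin m) (x : Om m), 0 ≤ a Q (pa u) u x ∧ a Q (pa u) u x ≤ 1 := by
    intro u x
    obtain ⟨_, _, _, _, _, _, h⟩ := acp m Q hQ (pa u) u x
    obtain ⟨_, h1, h2, _⟩ := h (hup u)
    exact ⟨h1, h2⟩
  have hphi : ∀ (u : Fin m) (x : Om m), 0 ≤ phi (a Q (pa u) u x) ∧ phi (a Q (pa u) u x) ≤ 1 := by
    intro u x
    obtain ⟨h1, h2⟩ := ha u x
    obtain ⟨_, h3, h4, _⟩ := inq _ _ h1 h2 h1 h2 (fun h => h) (fun h => h)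
    exact ⟨h3, h4⟩
  obtain ⟨f, hf⟩ : ∃ f : Fin m → Om m → ℝ, ∀ u x, f u x = Q x * phi (a Q (pa u) u x) :=
    ⟨fun u x => Q x * phi (a Q (pa u) u x), fun u x => rfl⟩
  have hf0 : ∀ u x, 0 ≤ f u x := fun u x => by
    rw [hf]; exact mul_nonneg (hQ.1 x) (hphi u x).1
  have hf1 : ∀ u x, f u x ≤ Q x := fun u x => by
    rw [hf]; exact mul_le_of_le_one_right (hQ.1 x) (hphi u x).2
  have hfd : ∀ u (x y : Om m), (∀ v ∈ Λ, x v = y v) → f u x = f u y := by
    intro u x y h
    rw [hf, hf, hdep x y h]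
    have e1 := (loc m Q Λ hdep (pa u)).1 x y h
    have e2 := (loc m Q Λ hdep (insert u (pa u))).1 x y h
    unfold a
    rw [e1, e2]
  have hfz : ∀ u, u ∉ Λ → ∀ x, f u x = 0 := by
    intro u hu x
    rw [hf]
    rcases (hQ.1 x).eq_or_lt with h0 | h0
    · rw [← h0, zero_mul]
    · have hw : 0 < w Q (pa u) x := lt_of_lt_of_le h0 (acp m Q hQ (pa u) u x).2.1
      have e := (loc m Q Λ hdep (pa u)).2 u hu (hup u) x
      have e2 : a Q (pa u) u x = 1 / 2 := by
        unfold a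
        rw [e]
        field_simp
      have e3 : phi (1 / 2) = 0 := by
        unfold phi
        norm_num
      rw [e2, e3, mul_zero]
  obtain ⟨n, hn⟩ : ∃ n : Fin m → ℝ, ∀ u, n u = ∑ x, f u x := ⟨fun u => ∑ x, f u x, fun u => rfl⟩
  have hn0 : ∀ u, 0 ≤ n u := fun u => by
    rw [hn]; exact sum_nonneg fun x _ => hf0 u x
  have hn1 : ∀ u, n u ≤ 1 := fun u => by
    rw [hn, ← hQ.2]; exact sum_le_sum fun x _ => hf1 u x
  refine ⟨n, fun u => ⟨hn0 u, hn1 u⟩, ?_, ?_⟩
  · have h := klq m Q hQ L hQL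
    refine le_trans (le_of_eq ?_) h
    refine sum_congr rfl fun u _ => ?_
    rw [hn]
    exact sum_congr rfl fun x _ => hf u x
  · have hexch : ∑ τ ∈ T, X Q (S τ) = ∑ u : Fin m, ∑ τ ∈ T, ∑ x with u ∈ S τ x, f u x := by
      rw [sum_comm]
      refine sum_congr rfl fun τ _ => ?_
      unfold X
      have e1 : ∀ x : Om m, Q x * ∑ v ∈ S τ x, phi (a Q (pa v) v x) =
          ∑ u : Fin m, if u ∈ S τ x then f u x else 0 := by
        intro x
        rw [mul_sum, sum_ite_mem, univ_inter]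
        exact sum_congr rfl fun u _ => (hf u x).symm
      rw [sum_congr rfl fun x _ => e1 x, sum_comm]
      refine sum_congr rfl fun u _ => ?_
      rw [sum_filter]
    have hres : ∑ u : Fin m, ∑ τ ∈ T, ∑ x with u ∈ S τ x, f u x =
        ∑ u ∈ Λ.filter (fun u => 0 < n u), ∑ τ ∈ T, ∑ x with u ∈ S τ x, f u x := by
      symm
      refine sum_subset (subset_univ _) fun u _ hu => ?_
      refine sum_eq_zero fun τ _ => sum_eq_zero fun x _ => ?_
      by_cases huΛ : u ∈ Λ
      · have h0 : n u = 0 := by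
          refine le_antisymm ?_ (hn0 u)
          by_contra hcon
          push Not at hcon
          exact hu (mem_filter.2 ⟨huΛ, hcon⟩)
        rw [hn, sum_eq_zero_iff_of_nonneg (fun x _ => hf0 u x)] at h0
        exact h0 x (mem_univ _)
      · exact hfz u huΛ x
    rw [hexch, hres]
    refine sum_le_sum fun u hu => ?_
    obtain ⟨huΛ, hpos⟩ := mem_filter.1 hu
    have hlog : 0 ≤ log (1 / n u) := by
      apply log_nonneg
      rw [le_div_iff₀ hpos, one_mul]
      exact hn1 u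
    have hI := IH (fun x => f u x / n u) (L + log (1 / n u))
      ⟨fun x => div_nonneg (hf0 u x) hpos.le, by
        rw [← sum_div, ← hn, div_self hpos.ne']⟩
      (fun x y h => by
        show f u x / n u = f u y / n u
        rw [hfd u x y h])
      (by linarith)
      (fun x => by
        show f u x / n u ≤ exp (L + log (1 / n u)) / 2 ^ m
        rw [exp_add, exp_log (by positivity)]
        have h1 : f u x ≤ exp L / 2 ^ m := (hf1 u x).trans (hQL x)
        have h2 : f u x / n u ≤ (exp L / 2 ^ m) / n u := div_le_div_of_nonneg_right h1 hpos.le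
        refine h2.trans (le_of_eq ?_)
        ring)
      u huΛ
    have e : ∑ τ ∈ T, ∑ x with u ∈ S τ x, f u x =
        n u * ∑ τ ∈ T, ∑ x with u ∈ S τ x, f u x / n u := by
      rw [mul_sum]
      refine sum_congr rfl fun τ _ => ?_
      rw [mul_sum]
      refine sum_congr rfl fun x _ => ?_
      field_simp
    rw [e]
    exact mul_le_mul_of_nonneg_left hI hpos.le

theorem ENT (acp : ACP_stmt) (inq : INQ_stmt) (yng : YNG_stmt) (mai : MAI_stmt) (klq : KLQ_stmt) (loc : LOC_stmt) (sml : SML_stmt) : ENT_stmt := by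
  intro j
  induction j with
  | zero =>
    refine ⟨1, one_pos, ?_⟩
    intro m κ T S Λ z N hR hN Q L hQ _ _ _ v hv
    have h := hN (0 + 1) v hv
    rw [pow_zero, mul_one, one_mul]
    refine le_trans (le_of_eq ?_) h
    exact sum_congr rfl fun τ hτ => ENT_base (hR τ hτ) v Q hQ
  | succ j ih =>
    obtain ⟨C, hC, ih⟩ := ih
    obtain ⟨C', hC', hsml⟩ := sml j
    refine ⟨17 ^ (j + 1) * C * C' + 2, by positivity, ?_⟩
    intro m κ T S Λ z N hR hN Q L hQ hdep hL hQL v hv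
    obtain ⟨A, hA⟩ : ∃ A : ℝ, A = L + log (#Λ + 3) := ⟨_, rfl⟩
    rw [← hA]
    have hlog3 : (1 : ℝ) ≤ log (#Λ + 3) := by
      have h0 : (0 : ℝ) ≤ (#Λ : ℝ) := Nat.cast_nonneg _
      have h1 : exp 1 ≤ (#Λ : ℝ) + 3 := by
        have := exp_one_lt_d9
        linarith
      exact (le_log_iff_exp_le (by positivity)).2 h1
    have hA1 : 1 ≤ A := by linarith
    have hLA : L + 1 ≤ A := by linarith
    have hN0 : 0 ≤ N := le_trans (sum_nonneg fun τ _ => by positivity) (hN 0 v hv)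
    obtain ⟨n, hn, hnL, hX⟩ := ENT_X acp inq klq loc T (fun τ => S τ (j + 1)) Λ Q hQ hdep
      (fun L' => C * N * (L' + log (#Λ + 3)) ^ j) L hL hQL
      (fun R L' hR' hd' hL' hRL' u hu =>
        ih m κ T S Λ z N hR hN R L' hR' hd' hL' hRL' u (mem_insert_of_mem hu))
    have hs := hsml (Fin m) (Λ.filter (fun u => 0 < n u)) n L A
      (fun u hu => ⟨(mem_filter.1 hu).2, (hn u).2⟩)
      (le_trans (sum_le_sum_of_subset_of_nonneg (subset_univ _) fun u _ _ => (hn u).1) hnL)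
      hA1
      (by
        have h0 : (#(Λ.filter (fun u => 0 < n u)) : ℝ) ≤ (#Λ : ℝ) := by
          exact_mod_cast card_filter_le _ _
        have h1 : log (#(Λ.filter (fun u => 0 < n u)) + 3) ≤ log (#Λ + 3) := by
          apply log_le_log (by positivity)
          linarith
        linarith)
    have hXb : ∑ τ ∈ T, X Q (S τ (j + 1)) ≤ C * N * (C' * (L + 1) * A ^ j) := by
      refine hX.trans ?_
      have e : ∑ u ∈ Λ.filter (fun u => 0 < n u),
          n u * (C * N * (L + log (1 / n u) + log (#Λ + 3)) ^ j) =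
          C * N * ∑ u ∈ Λ.filter (fun u => 0 < n u), n u * (A + log (1 / n u)) ^ j := by
        rw [mul_sum]
        refine sum_congr rfl fun u _ => ?_
        have e1 : L + log (1 / n u) + log (#Λ + 3) = A + log (1 / n u) := by rw [hA]; ring
        rw [e1]
        ring
      show ∑ u ∈ Λ.filter (fun u => 0 < n u),
          n u * (C * N * (L + log (1 / n u) + log (#Λ + 3)) ^ j) ≤ _
      rw [e]
      exact mul_le_mul_of_nonneg_left hs (by positivity)
    have hτ : ∀ τ ∈ T, ∑ x with v ∈ S τ (j + 1 + 1) x, Q x ≤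
        17 ^ (j + 1) * X Q (S τ (j + 1)) +
          2 * ((#{x : Om m | v ∈ S τ (j + 1 + 1) x} : ℝ) / 2 ^ m) := by
      intro τ hτ
      have hy := (yng m Q hQ (S τ (j + 1)) (ENT_adp (hR τ hτ) (j + 1))).2
        (univ.filter fun x : Om m => v ∈ S τ (j + 1 + 1) x) (by
          intro x hx y hxy
          rw [mem_filter] at hx ⊢
          refine ⟨mem_univ _, ?_⟩
          rw [((hR τ hτ).2 (j + 1) x).2 y hxy]
          exact hx.2)
      have hm := mai m Q hQ (S τ) (hR τ hτ) (j + 1)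
      refine hy.trans ?_
      rw [mul_div_assoc]
      linarith
    have hsum : ∑ τ ∈ T, ∑ x with v ∈ S τ (j + 1 + 1) x, Q x ≤
        17 ^ (j + 1) * ∑ τ ∈ T, X Q (S τ (j + 1)) + 2 * N := by
      refine (sum_le_sum hτ).trans ?_
      rw [sum_add_distrib, ← mul_sum, ← mul_sum]
      have := hN (j + 1 + 1) v hv
      linarith
    refine hsum.trans ?_
    have hAj : (1 : ℝ) ≤ A ^ (j + 1) := one_le_pow₀ hA1
    have hAj0 : 0 ≤ A ^ j := pow_nonneg (by linarith) j
    have k1 : C * N * (C' * (L + 1) * A ^ j) ≤ C * N * (C' * A ^ (j + 1)) := by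
      apply mul_le_mul_of_nonneg_left _ (by positivity)
      rw [pow_succ, mul_assoc]
      apply mul_le_mul_of_nonneg_left _ hC'.le
      rw [mul_comm (A ^ j)]
      exact mul_le_mul_of_nonneg_right hLA hAj0
    have k2 : (17 : ℝ) ^ (j + 1) * ∑ τ ∈ T, X Q (S τ (j + 1)) ≤
        17 ^ (j + 1) * (C * N * (C' * A ^ (j + 1))) :=
      mul_le_mul_of_nonneg_left (hXb.trans k1) (by positivity)
    have k3 : 2 * N ≤ 2 * N * A ^ (j + 1) := le_mul_of_one_le_right (by positivity) hAj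
    have e : (17 ^ (j + 1) * C * C' + 2) * N * A ^ (j + 1) =
        17 ^ (j + 1) * (C * N * (C' * A ^ (j + 1))) + 2 * N * A ^ (j + 1) := by ring
    rw [e]
    linarith

end EN
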